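import Mathlib
import Pool.Agent.H85.AAE2.Defs

/-!
# Project AAE2 (MP_ae801b_ag): GP, general position
-/

set_option autoImplicit false

open Polynomial

namespace Pool.Agent.H85.AAE2

universe u

/-- a finite set of pairwise incomparable primes none of which contains `a`: for each of them an
element of `a` lying in all the others but not in it -/
theorem gp_sep {Q : Type u} [CommRing Q] (a : Ideal Q) (S : Finset (Ideal Q))
    (hS : ∀ P ∈ S, P.IsPrime ∧ ¬ a ≤ P) (hinc : ∀ P ∈ S, ∀ P' ∈ S, P' ≤ P → P' = P)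
    (P : Ideal Q) (hP : P ∈ S) :
    ∃ w : Q, w ∈ a ∧ w ∉ P ∧ ∀ P' ∈ S, P' ≠ P → w ∈ P' := by
  classical
  have hpr := (hS P hP).1
  have key : ¬ (a ⊓ (S.erase P).inf id ≤ P) := by
    intro hle
    rcases (hpr.inf_le).1 hle with h1 | h1
    · exact (hS P hP).2 h1
    · obtain ⟨P', hP', h2⟩ := (hpr.inf_le').1 h1
      exact (Finset.ne_of_mem_erase hP')
        (hinc P hP P' (Finset.mem_of_mem_erase hP') h2)
  obtain ⟨w, hw, hwP⟩ := SetLike.not_le_iff_exists.1 key
  refine ⟨w, hw.1, hwP, fun P' hP' hne => ?_⟩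
  have : (S.erase P).inf id ≤ P' := Finset.inf_le (f := id) (Finset.mem_erase.2 ⟨hne, hP'⟩)
  exact this hw.2

/-- one step: an element `z` of `a` with `u + z y` outside all the primes of `S` -/
theorem gp_step {Q : Type u} [CommRing Q] (a : Ideal Q) (S : Finset (Ideal Q))
    (hS : ∀ P ∈ S, P.IsPrime ∧ ¬ a ≤ P) (hinc : ∀ P ∈ S, ∀ P' ∈ S, P' ≤ P → P' = P)
    (u y : Q) (hy : ∀ P ∈ S, y ∉ P) :
    ∃ z : Q, z ∈ a ∧ ∀ P ∈ S, u + z * y ∉ P := by
  classical
  have h1 : ∀ P : Ideal Q, ∃ w : Q, P ∈ S → (w ∈ a ∧ w ∉ P ∧ ∀ P' ∈ S, P' ≠ P → w ∈ P') := by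
    intro P
    by_cases hP : P ∈ S
    · obtain ⟨w, hw⟩ := gp_sep a S hS hinc P hP
      exact ⟨w, fun _ => hw⟩
    · exact ⟨0, fun h => absurd h hP⟩
  choose w hw using h1
  refine ⟨∑ P ∈ S.filter (fun P => u ∈ P), w P, ?_, ?_⟩
  · exact Ideal.sum_mem _ fun P hP => (hw P (Finset.mem_filter.1 hP).1).1
  · intro P hP hmem
    have hpr := (hS P hP).1
    by_cases hu : u ∈ P
    · have hPf : P ∈ S.filter (fun P => u ∈ P) := Finset.mem_filter.2 ⟨hP, hu⟩
      have h2 : (∑ P ∈ S.filter (fun P => u ∈ P), w P) * y ∈ P := by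
        have := Ideal.sub_mem P hmem hu
        simpa using this
      rcases hpr.mem_or_mem h2 with h3 | h3
      · rw [← Finset.add_sum_erase _ _ hPf] at h3
        have h4 : (∑ P' ∈ (S.filter (fun P => u ∈ P)).erase P, w P') ∈ P := by
          refine Ideal.sum_mem _ fun P' hP' => ?_
          have h5 := Finset.mem_erase.1 hP'
          exact (hw P' (Finset.mem_filter.1 h5.2).1).2.2 P hP (Ne.symm h5.1)
        have h6 : w P ∈ P := (Ideal.add_mem_iff_left P h4).1 h3
        exact (hw P hP).2.1 h6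
      · exact hy P hP h3
    · have h4 : (∑ P' ∈ S.filter (fun P => u ∈ P), w P') ∈ P := by
        refine Ideal.sum_mem _ fun P' hP' => ?_
        have h5 := Finset.mem_filter.1 hP'
        have hne : P ≠ P' := by
          rintro rfl
          exact hu h5.2
        exact (hw P' h5.1).2.2 P hP hne
      have h5 : (∑ P' ∈ S.filter (fun P => u ∈ P), w P') * y ∈ P := Ideal.mul_mem_right _ _ h4
      exact hu ((Ideal.add_mem_iff_left P h5).1 hmem)

/-- the induction: heights go up -/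
theorem gp_height {Q : Type u} [CommRing Q] [IsNoetherianRing Q] (a : Ideal Q) (x : ℕ → Q)
    (y : Q) (n : ℕ) :
    ∃ z : ℕ → Q, (∀ j, z j ∈ a) ∧ ∀ p : Ideal Q, p.IsPrime → y ∉ p → ¬ a ≤ p →
      (∀ j, j < n → x j + z j * y ∈ p) → (n : ℕ∞) ≤ p.height := by
  classical
  induction n with
  | zero =>
    exact ⟨fun _ => 0, fun _ => Ideal.zero_mem _, fun p _ _ _ _ => by simp⟩
  | succ n ih =>
    obtain ⟨z, hz, hp⟩ := ih
    set J : Ideal Q := Ideal.span {t | ∃ j, j < n ∧ t = x j + z j * y} with hJ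
    have hfin := J.finite_minimalPrimes_of_isNoetherianRing
    set S : Finset (Ideal Q) := hfin.toFinset.filter (fun P => y ∉ P ∧ ¬ a ≤ P) with hSdef
    have hS : ∀ P ∈ S, P ∈ J.minimalPrimes ∧ y ∉ P ∧ ¬ a ≤ P := by
      intro P hP
      have h1 := Finset.mem_filter.1 hP
      exact ⟨hfin.mem_toFinset.1 h1.1, h1.2⟩
    obtain ⟨z', hz', hz''⟩ := gp_step a S (fun P hP => ⟨(hS P hP).1.1.1, (hS P hP).2.2⟩)
      (fun P hP P' hP' hle => le_antisymm hle ((hS P hP).1.2 (hS P' hP').1.1 hle))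
      (x n) y (fun P hP => (hS P hP).2.1)
    refine ⟨fun j => if j = n then z' else z j, ?_, ?_⟩
    · intro j
      by_cases hj : j = n
      · simp only [hj, if_true]; exact hz'
      · simp only [hj, if_false]; exact hz j
    · intro p hpp hyp hap hx
      have hold : ∀ j, j < n → x j + z j * y ∈ p := by
        intro j hj
        have := hx j (by omega)
        simpa [Nat.ne_of_lt hj] using this
      have hnew : x n + z' * y ∈ p := by
        have := hx n (by omega)
        simpa using this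
      have hJp : J ≤ p := by
        rw [hJ, Ideal.span_le]
        rintro t ⟨j, hj, rfl⟩
        exact hold j hj
      obtain ⟨P, hP, hPp⟩ := Ideal.exists_minimalPrimes_le hJp
      have hPpr : P.IsPrime := hP.1.1
      have hyP : y ∉ P := fun h => hyp (hPp h)
      have haP : ¬ a ≤ P := fun h => hap (h.trans hPp)
      have hPS : P ∈ S := Finset.mem_filter.2 ⟨hfin.mem_toFinset.2 hP, hyP, haP⟩
      have hlt : P < p := lt_of_le_of_ne hPp (by
        rintro rfl
        exact hz'' P hPS hnew)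
      have hht : (n : ℕ∞) ≤ P.height := by
        refine hp P hPpr hyP haP fun j hj => hP.1.2 ?_
        exact Ideal.subset_span ⟨j, hj, rfl⟩
      have h1 := Ideal.height_add_one_le_of_lt_of_isPrime hlt
      calc ((n + 1 : ℕ) : ℕ∞) = (n : ℕ∞) + 1 := by push_cast; rfl
        _ ≤ P.height + 1 := by gcongr
        _ ≤ p.height := h1

theorem gp {Q : Type u} [CommRing Q] [IsNoetherianRing Q] {δ s : ℕ}
    (hdim : ringKrullDim Q ≤ δ) (hs : δ + 1 ≤ s) (a : Ideal Q) (x : Fin s → Q) (y : Q)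
    (h : ∀ p : Ideal Q, p.IsPrime → (∀ j, x j ∈ p) → y ∈ p → a ≤ p) :
    ∃ z : Fin s → Q, (∀ j, z j ∈ a) ∧
      ∀ p : Ideal Q, p.IsPrime → (∀ j, x j + z j * y ∈ p) → a ≤ p := by
  classical
  obtain ⟨z, hz, hp⟩ := gp_height a (fun j => if hj : j < s then x ⟨j, hj⟩ else 0) y s
  refine ⟨fun j => z j, fun j => hz j, fun p hpp hx => ?_⟩
  by_contra hap
  by_cases hyp : y ∈ p
  · refine hap (h p hpp (fun j => ?_) hyp)
    have h1 : z j * y ∈ p := Ideal.mul_mem_left _ _ hyp
    exact (Ideal.add_mem_iff_left p h1).1 (hx j)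
  · have h1 : (s : ℕ∞) ≤ p.height := by
      refine hp p hpp hyp hap fun j hj => ?_
      simpa [hj] using hx ⟨j, hj⟩
    have h2 : (p.height : WithBot ℕ∞) ≤ ringKrullDim Q := Ideal.height_le_ringKrullDim_of_ne_top hpp.ne_top
    have h3 : ((s : ℕ∞) : WithBot ℕ∞) ≤ ((δ : ℕ∞) : WithBot ℕ∞) :=
      (WithBot.coe_le_coe.2 h1).trans (h2.trans hdim)
    have h4 : (s : ℕ∞) ≤ (δ : ℕ∞) := WithBot.coe_le_coe.1 h3
    have h5 : s ≤ δ := by exact_mod_cast h4
    omega

end Pool.Agent.H85.AAE2
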